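import Mathlib

set_option autoImplicit false

/-!
# MP_acd90d_co: there are no perfect `s`-bases of size `m` for `s ≥ 2`, `m ≥ 2`
-/

namespace Pool.Agent.Results.MP_acd90d_co.NoPerfectBasis

/-- `A` is an `s`-basis of `G`: every element is a sum `∑ c a • a` over `a ∈ A` with nonnegative
integer coefficients satisfying `∑ c a ≤ s`. -/
def IsBasis {G : Type} [AddCommGroup G] (s : ℕ) (A : Finset G) : Prop :=
  ∀ g : G, ∃ c : G → ℕ, ∑ a ∈ A, c a ≤ s ∧ ∑ a ∈ A, c a • a = g

/-- An `s`-basis `A` of size `m` of the finite abelian group `G` is perfect if `|G|` equals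
the binomial coefficient `m + s` choose `s`. -/
def IsPerfectBasis {G : Type} [AddCommGroup G] (s : ℕ) (A : Finset G) : Prop :=
  IsBasis s A ∧ Nat.card G = (A.card + s).choose s

section core

variable {β G : Type} [Fintype β] [AddCommGroup G] [Finite G]

/-- sum of the values of a multiset -/
def S (v : β → G) (M : Multiset β) : G := (M.map v).sum

omit [Fintype β] [Finite G] in
theorem S_cons (v : β → G) (a : β) (M : Multiset β) : S v (a ::ₘ M) = v a + S v M := by
  simp [S]

omit [Fintype β] [Finite G] in
theorem S_add (v : β → G) (M N : Multiset β) : S v (M + N) = S v M + S v N := by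
  simp [S]

/-- If all sums of `s` terms of a family `v` of `N ≥ 3` elements are distinct, with `s ≥ 2`, then
`|G|` is larger than the number of multisets of size `s`. -/
theorem core (v : β → G) (s m : ℕ) (hβ : Fintype.card β = m + 1) (hs : 2 ≤ s) (hm : 2 ≤ m)
    (hinj : ∀ M M' : Multiset β, M.card = s → M'.card = s → S v M = S v M' → M = M') :
    (m + s).choose s < Nat.card G := by
  classical
  have := Fintype.ofFinite G
  have hne : Nonempty β := by
    rw [← Fintype.card_pos_iff]; omega
  obtain ⟨b0⟩ := hne
  obtain ⟨t, rfl⟩ : ∃ t, s = t + 2 := ⟨s - 2, by omega⟩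
  have hinj1 : ∀ M M' : Multiset β, M.card = t + 1 → M'.card = t + 1 → S v M = S v M' → M = M' := by
    intro M M' h1 h2 h3
    have := hinj (b0 ::ₘ M) (b0 ::ₘ M') (by simp [h1]) (by simp [h2]) (by rw [S_cons, S_cons, h3])
    exact (Multiset.cons_inj_right b0).1 this
  have hinj2 : ∀ M M' : Multiset β, M.card = t → M'.card = t → S v M = S v M' → M = M' := by
    intro M M' h1 h2 h3
    have := hinj1 (b0 ::ₘ M) (b0 ::ₘ M') (by simp [h1]) (by simp [h2]) (by rw [S_cons, S_cons, h3])
    exact (Multiset.cons_inj_right b0).1 this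
  let Ψ : (Σ a : β, Sym {x : β // x ≠ a} (t + 1)) ⊕ Sym β t → G := fun z =>
    match z with
    | Sum.inl ⟨a, Q⟩ => v a - S v ((Q : Multiset {x : β // x ≠ a}).map Subtype.val)
    | Sum.inr R => - S v (R : Multiset β)
  have hnot : ∀ (a : β) (Q : Sym {x : β // x ≠ a} (t + 1)),
      a ∉ (Q : Multiset {x : β // x ≠ a}).map Subtype.val := by
    intro a Q h
    obtain ⟨x, -, hx⟩ := Multiset.mem_map.1 h
    exact x.2 hx
  have hcard : ∀ (a : β) (Q : Sym {x : β // x ≠ a} (t + 1)),
      ((Q : Multiset {x : β // x ≠ a}).map Subtype.val).card = t + 1 := by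
    intro a Q
    rw [Multiset.card_map]
    exact Q.2
  have hΨ : Function.Injective Ψ := by
    rintro (⟨a, Q⟩ | R) (⟨a', Q'⟩ | R') h
    · simp only [Ψ] at h
      have h1 : S v (a ::ₘ (Q' : Multiset {x : β // x ≠ a'}).map Subtype.val) =
          S v (a' ::ₘ (Q : Multiset {x : β // x ≠ a}).map Subtype.val) := by
        rw [S_cons, S_cons]
        rw [sub_eq_sub_iff_add_eq_add] at h
        exact h
      have h2 := hinj _ _ (by rw [Multiset.card_cons, hcard]) (by rw [Multiset.card_cons, hcard]) h1
      by_cases haa : a = a'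
      · subst haa
        have h3 := (Multiset.cons_inj_right a).1 h2
        have h4 : (Q' : Multiset {x : β // x ≠ a}) = (Q : Multiset {x : β // x ≠ a}) :=
          Multiset.map_injective Subtype.val_injective h3
        have h5 : Q' = Q := Sym.coe_injective h4
        rw [h5]
      · exfalso
        have h3 : a ∈ a' ::ₘ (Q : Multiset {x : β // x ≠ a}).map Subtype.val := by
          rw [← h2]; exact Multiset.mem_cons_self _ _
        rcases Multiset.mem_cons.1 h3 with h4 | h4
        · exact haa h4
        · exact hnot a Q h4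
    · exfalso
      simp only [Ψ] at h
      have h1 : S v (a ::ₘ (R' : Multiset β)) = S v ((Q : Multiset {x : β // x ≠ a}).map Subtype.val) := by
        rw [S_cons]
        have h6 : v a = S v ((Q : Multiset {x : β // x ≠ a}).map Subtype.val) - S v (R' : Multiset β) := by
          rw [sub_eq_iff_eq_add] at h
          rw [h]; abel
        rw [h6]; abel
      have h2 := hinj1 _ _ (by rw [Multiset.card_cons]; exact congrArg (· + 1) R'.2) (hcard a Q) h1
      exact hnot a Q (by rw [← h2]; exact Multiset.mem_cons_self _ _)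
    · exfalso
      simp only [Ψ] at h
      have h1 : S v (a' ::ₘ (R : Multiset β)) = S v ((Q' : Multiset {x : β // x ≠ a'}).map Subtype.val) := by
        rw [S_cons]
        have h6 : v a' = S v ((Q' : Multiset {x : β // x ≠ a'}).map Subtype.val) - S v (R : Multiset β) := by
          rw [eq_comm, sub_eq_iff_eq_add] at h
          rw [h]; abel
        rw [h6]; abel
      have h2 := hinj1 _ _ (by rw [Multiset.card_cons]; exact congrArg (· + 1) R.2) (hcard a' Q') h1
      exact hnot a' Q' (by rw [← h2]; exact Multiset.mem_cons_self _ _)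
    · simp only [Ψ] at h
      have h1 := hinj2 _ _ R.2 R'.2 (neg_injective h)
      rw [Sym.coe_injective h1]
  have hle := Fintype.card_le_of_injective _ hΨ
  rw [Fintype.card_sum, Fintype.card_sigma] at hle
  have hsub : ∀ a : β, Fintype.card (Sym {x : β // x ≠ a} (t + 1)) = (m + t).choose (t + 1) := by
    intro a
    rw [Sym.card_sym_eq_choose, Fintype.card_subtype_compl, Fintype.card_subtype_eq, hβ]
    congr 1
  rw [Finset.sum_congr rfl (fun a _ => hsub a), Finset.sum_const, Finset.card_univ, hβ,
    Sym.card_sym_eq_choose, hβ, smul_eq_mul] at hle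
  rw [Nat.card_eq_fintype_card]
  refine lt_of_lt_of_le ?_ hle
  have e1 : m + 1 + t - 1 = m + t := by omega
  rw [e1]
  have e2 : (m + (t + 2)).choose (t + 2) = (m + t).choose (t + 2) + 2 * (m + t).choose (t + 1)
      + (m + t).choose t := by
    have h1 : m + (t + 2) = (m + t) + 1 + 1 := by ring
    rw [h1, Nat.choose_succ_succ, Nat.choose_succ_succ (m + t) t, Nat.choose_succ_succ (m + t) (t + 1)]
    ring
  rw [e2]
  have e3 := Nat.choose_succ_right_eq (m + t) (t + 1)
  have e4 : m + t - (t + 1) = m - 1 := by omega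
  rw [e4] at e3
  have e5 : 0 < (m + t).choose (t + 1) := Nat.choose_pos (by omega)
  obtain ⟨m', rfl⟩ : ∃ m', m = m' + 2 := ⟨m - 2, by omega⟩
  have e6 : m' + 2 - 1 = m' + 1 := by omega
  rw [e6] at e3
  have e7 : t + 1 + 1 = t + 2 := rfl
  rw [e7] at e3
  nlinarith

end core

/-- **Theorem.** For all `s ≥ 2` and `m ≥ 2` no finite abelian group has a perfect `s`-basis of
size `m`. -/
theorem result : ∀ s m : ℕ, 2 ≤ s → 2 ≤ m → ∀ (G : Type) [AddCommGroup G] [Finite G]
    (A : Finset G), A.card = m → ¬ IsPerfectBasis s A := by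
  classical
  intro s m hs hm G _ _ A hA ⟨hbasis, hcard⟩
  have := Fintype.ofFinite G
  rw [hA] at hcard
  let v : Option A → G := fun x => x.elim 0 (fun a => (a : G))
  have hβ : Fintype.card (Option A) = m + 1 := by
    rw [Fintype.card_option, Fintype.card_coe, hA]
  -- the sum map on multisets of size `s` is onto, hence one-to-one
  let Φ : Sym (Option A) s → G := fun M => S v (M : Multiset (Option A))
  have hsurj : Function.Surjective Φ := by
    intro g
    obtain ⟨c, hc1, hc2⟩ := hbasis g
    let M : Multiset (Option A) := (∑ a : A, Multiset.replicate (c a) (some a)) +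
      Multiset.replicate (s - ∑ a ∈ A, c a) none
    have hM : M.card = s := by
      simp only [M, Multiset.card_add, Multiset.card_replicate, Multiset.card_sum]
      rw [Finset.sum_coe_sort A (fun a => c a)]
      omega
    refine ⟨⟨M, hM⟩, ?_⟩
    change S v M = g
    simp only [M, S_add]
    have h0 : S v (Multiset.replicate (s - ∑ a ∈ A, c a) none) = 0 := by
      simp [S, v]
    have h1 : S v (∑ a : A, Multiset.replicate (c a) (some a)) = ∑ a : A, c a • (a : G) := by
      simp only [S]
      rw [← Multiset.coe_mapAddMonoidHom, map_sum, ← Multiset.coe_sumAddMonoidHom, map_sum]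
      apply Finset.sum_congr rfl
      intro a _
      simp [v]
    rw [h0, h1, add_zero, Finset.sum_coe_sort A (fun a => c a • a)]
    exact hc2
  have hcardeq : Fintype.card (Sym (Option A) s) = Fintype.card G := by
    rw [Sym.card_sym_eq_choose, hβ, ← Nat.card_eq_fintype_card, hcard]
    congr 1
    omega
  have hbij : Function.Bijective Φ := (Fintype.bijective_iff_surjective_and_card Φ).2 ⟨hsurj, hcardeq⟩
  have := core v s m hβ hs hm (by
    intro M M' h1 h2 h3
    have := hbij.1 (a₁ := ⟨M, h1⟩) (a₂ := ⟨M', h2⟩) h3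
    exact congrArg Subtype.val this)
  omega

end Pool.Agent.Results.MP_acd90d_co.NoPerfectBasis
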